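import Mathlib

/-!
# Han's conjecture: Hochschild homology with coefficients, recursive definition

`BiAct k A X`: commuting left and right actions of the algebra `A` on the space `X` (units are not
required to act as the identity).  `Hv n β` says that the `n`-th Hochschild homology of `A` with
coefficients in the bimodule `β` vanishes; the chain complex is `C_0 = X`,
`C_(n+1) X = C_n (X ⊗ A)` with the twisted right action `(x ⊗ c) * b = x ⊗ cb - xc ⊗ b`,
`d (x ⊗ a) = x a - a x`.
-/

set_option autoImplicit false

open scoped TensorProduct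

namespace Run7.h817.Han

variable {k A : Type} [Field k] [Ring A] [Algebra k A]

/-- Commuting left and right actions (non-unital bimodule). -/
structure BiAct (k A X : Type) [Field k] [Ring A] [Algebra k A] [AddCommGroup X] [Module k X] where
  l : A →ₗ[k] X →ₗ[k] X
  r : A →ₗ[k] X →ₗ[k] X
  l_mul : ∀ a b x, l (a * b) x = l a (l b x)
  r_mul : ∀ a b x, r (a * b) x = r b (r a x)
  comm : ∀ a b x, l a (r b x) = r b (l a x)

/-- A left action. -/
structure LAct (k A X : Type) [Field k] [Ring A] [Algebra k A] [AddCommGroup X] [Module k X] where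
  l : A →ₗ[k] X →ₗ[k] X
  l_mul : ∀ a b x, l (a * b) x = l a (l b x)

/-- A right action. -/
structure RAct (k A X : Type) [Field k] [Ring A] [Algebra k A] [AddCommGroup X] [Module k X] where
  r : A →ₗ[k] X →ₗ[k] X
  r_mul : ∀ a b x, r (a * b) x = r b (r a x)

section

variable {X : Type} [AddCommGroup X] [Module k X]

/-- `d (x ⊗ a) = x a - a x` -/
noncomputable def d0 (β : BiAct k A X) : X ⊗[k] A →ₗ[k] X :=
  TensorProduct.lift (β.r.flip - β.l.flip)

@[simp] theorem d0_tmul (β : BiAct k A X) (x : X) (a : A) :
    d0 β (x ⊗ₜ a) = β.r a x - β.l a x := by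
  simp [d0]

/-- the twisted right action on `X ⊗ A` -/
noncomputable def twr (β : BiAct k A X) : A →ₗ[k] (X ⊗[k] A) →ₗ[k] (X ⊗[k] A) where
  toFun b := (LinearMap.mulRight k b).lTensor X -
    ((TensorProduct.mk k X A).flip b) ∘ₗ TensorProduct.lift β.r.flip
  map_add' b c := by
    apply TensorProduct.ext'
    intro x a
    simp [mul_add, TensorProduct.tmul_add]
    abel
  map_smul' t b := by
    apply TensorProduct.ext'
    intro x a
    simp [TensorProduct.tmul_smul, smul_sub]

@[simp] theorem twr_tmul (β : BiAct k A X) (b : A) (x : X) (c : A) :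
    twr β b (x ⊗ₜ c) = x ⊗ₜ (c * b) - (β.r c x) ⊗ₜ b := by
  simp [twr]

/-- the left action on `X ⊗ A` -/
noncomputable def twl (β : BiAct k A X) : A →ₗ[k] (X ⊗[k] A) →ₗ[k] (X ⊗[k] A) :=
  (LinearMap.rTensorHom A) ∘ₗ β.l

@[simp] theorem twl_tmul (β : BiAct k A X) (b : A) (x : X) (c : A) :
    twl β b (x ⊗ₜ c) = (β.l b x) ⊗ₜ c := by
  simp [twl]

/-- the twisted bimodule `X ⊗ A` -/
noncomputable def tw (β : BiAct k A X) : BiAct k A (X ⊗[k] A) where
  l := twl β
  r := twr β
  l_mul a b x := by
    induction x with
    | zero => simp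
    | tmul x c => simp [β.l_mul]
    | add x y hx hy => rw [map_add, hx, hy, map_add, map_add]
  r_mul a b x := by
    induction x with
    | zero => simp
    | tmul x c => simp [β.r_mul, mul_assoc]
    | add x y hx hy => rw [map_add, hx, hy, map_add, map_add]
  comm a b x := by
    induction x with
    | zero => simp
    | tmul x c => simp [β.comm]
    | add x y hx hy => rw [map_add, map_add, hx, hy, map_add, map_add]

@[simp] theorem tw_l_tmul (β : BiAct k A X) (b : A) (x : X) (c : A) :
    (tw β).l b (x ⊗ₜ c) = (β.l b x) ⊗ₜ c := twl_tmul β b x c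

@[simp] theorem tw_r_tmul (β : BiAct k A X) (b : A) (x : X) (c : A) :
    (tw β).r b (x ⊗ₜ c) = x ⊗ₜ (c * b) - (β.r c x) ⊗ₜ b := twr_tmul β b x c

/-- `d ∘ d = 0` in the lowest degree -/
theorem d0_d0 (β : BiAct k A X) (z : (X ⊗[k] A) ⊗[k] A) : d0 β (d0 (tw β) z) = 0 := by
  induction z with
  | zero => simp
  | tmul y b =>
    induction y with
    | zero => simp
    | tmul x a =>
      simp [β.r_mul, β.l_mul, β.comm]
    | add x y hx hy => rw [TensorProduct.add_tmul, map_add, map_add, hx, hy, add_zero]
  | add x y hx hy => rw [map_add, map_add, hx, hy, add_zero]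

end

/-- `Hv n β`: the `n`-th Hochschild homology of `A` with coefficients in `β` vanishes. -/
def Hv : ℕ → ∀ {X : Type} [AddCommGroup X] [Module k X], BiAct k A X → Prop
  | 0, _, _, _, β => Function.Surjective (d0 β)
  | 1, _, _, _, β => ∀ z, d0 β z = 0 → ∃ t, d0 (tw β) t = z
  | n + 2, _, _, _, β => Hv (n + 1) (tw β)

/-- short exact sequences of bimodules -/
structure SES {X' X X'' : Type} [AddCommGroup X'] [Module k X'] [AddCommGroup X] [Module k X]
    [AddCommGroup X''] [Module k X''] (β' : BiAct k A X') (β : BiAct k A X) (β'' : BiAct k A X'')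
    (i : X' →ₗ[k] X) (p : X →ₗ[k] X'') : Prop where
  inj : Function.Injective i
  surj : Function.Surjective p
  exact : ∀ x, p x = 0 ↔ ∃ x', i x' = x
  i_l : ∀ a x, i (β'.l a x) = β.l a (i x)
  i_r : ∀ a x, i (β'.r a x) = β.r a (i x)
  p_l : ∀ a x, p (β.l a x) = β''.l a (p x)
  p_r : ∀ a x, p (β.r a x) = β''.r a (p x)

/-- `A` as a bimodule over itself -/
noncomputable def self (k A : Type) [Field k] [Ring A] [Algebra k A] : BiAct k A A where
  l := LinearMap.mul k A
  r := (LinearMap.mul k A).flip
  l_mul a b x := by simp [mul_assoc]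
  r_mul a b x := by simp [mul_assoc]
  comm a b x := by simp [mul_assoc]

/-- the bimodule `X ⊗ Y` for a left action on `X` and a right action on `Y` -/
noncomputable def ten {X Y : Type} [AddCommGroup X] [Module k X] [AddCommGroup Y] [Module k Y]
    (lX : LAct k A X) (rY : RAct k A Y) : BiAct k A (X ⊗[k] Y) where
  l := (LinearMap.rTensorHom Y) ∘ₗ lX.l
  r := (LinearMap.lTensorHom X) ∘ₗ rY.r
  l_mul a b x := by
    induction x with
    | zero => simp
    | tmul x c => simp [lX.l_mul]
    | add x y hx hy => rw [map_add, hx, hy, map_add, map_add]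
  r_mul a b x := by
    induction x with
    | zero => simp
    | tmul x c => simp [rY.r_mul]
    | add x y hx hy => rw [map_add, hx, hy, map_add, map_add]
  comm a b x := by
    induction x with
    | zero => simp
    | tmul x c => simp
    | add x y hx hy => rw [map_add, map_add, hx, hy, map_add, map_add]

/-- `X` is generated by `e`, split: `s : X → A` is left `A`-linear and `s x • e = x`
(so `X` is isomorphic to the projective left ideal generated by `s e`). -/
def Principal {X : Type} [AddCommGroup X] [Module k X] (lX : LAct k A X) : Prop :=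
  ∃ (e : X) (s : X →ₗ[k] A), (∀ a x, s (lX.l a x) = a * s x) ∧ ∀ x, lX.l (s x) e = x

end Run7.h817.Han
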