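import Mathlib
import Pool.Agent.Run7.h817.Han.Cx

/-!
# Han's conjecture: from the recursive `Hv` to the Hochschild complex of the frozen statement
-/

set_option autoImplicit false

open scoped TensorProduct

namespace Run7.h817.Han

section Contract

variable {α : Type} {n : ℕ} (op : α → α → α)

theorem contract_zero_cons (x : α) (g : Fin (n + 1) → α) :
    Fin.contractNth (0 : Fin (n + 2)) op (Fin.cons x g : Fin (n + 2) → α)
      = Fin.cons (op x (g 0)) (Fin.tail g) := by
  funext k
  refine Fin.cases ?_ (fun k => ?_) k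
  · simp [Fin.contractNth]
  · simp [Fin.contractNth, Fin.tail]

theorem contract_succ_cons (x : α) (g : Fin (n + 1) → α) (j : Fin (n + 1)) :
    Fin.contractNth j.succ op (Fin.cons x g : Fin (n + 2) → α)
      = Fin.cons x (Fin.contractNth j op g) := by
  funext k
  refine Fin.cases ?_ (fun k => ?_) k
  · simp [Fin.contractNth]
  · simp only [Fin.contractNth, Fin.val_succ, Fin.cons_succ, Nat.add_lt_add_iff_right,
      Nat.add_right_cancel_iff]
    split_ifs <;> simp

end Contract

variable {k A : Type} [Field k] [Ring A] [Algebra k A]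

section

variable {X : Type} [AddCommGroup X] [Module k X]

/-- cochains with values in the dual -/
abbrev Co (k A X : Type) [Field k] [Ring A] [Algebra k A] [AddCommGroup X] [Module k X]
    (n : ℕ) : Type :=
  X →ₗ[k] MultilinearMap k (fun _ : Fin n => A) k

/-- the dual Hochschild differential, evaluated -/
def dl (β : BiAct k A X) {n : ℕ} (f : Co k A X n) (x : X) (a : Fin (n + 1) → A) : k :=
  f (β.r (a 0) x) (Fin.tail a) +
    ∑ i : Fin n, (-1 : k) ^ ((i : ℕ) + 1) *
      f x (Fin.contractNth i.castSucc (fun x y : A => x * y) a) +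
    (-1 : k) ^ (n + 1) * f (β.l (a (Fin.last n)) x) (Fin.init a)

theorem dl_add (β : BiAct k A X) {n : ℕ} (f : Co k A X n) (x y : X) (a : Fin (n + 1) → A) :
    dl β f (x + y) a = dl β f x a + dl β f y a := by
  simp only [dl, map_add, add_apply, mul_add, Finset.sum_add_distrib]
  ring

theorem dl_zero_arg (β : BiAct k A X) {n : ℕ} (f : Co k A X n) (a : Fin (n + 1) → A) :
    dl β f 0 a = 0 := by
  simp [dl]

theorem dl_neg (β : BiAct k A X) {n : ℕ} (f : Co k A X n) (x : X) (a : Fin (n + 1) → A) :
    dl β (-f) x a = - dl β f x a := by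
  simp only [dl, LinearMap.neg_apply, neg_apply, mul_neg, Finset.sum_neg_distrib]
  ring

/-- `f : X → ML (n+1)` as a map `X ⊗ A → ML n` -/
noncomputable def hat {n : ℕ} (f : Co k A X (n + 1)) : Co k A (X ⊗[k] A) n :=
  TensorProduct.lift
    { toFun := fun x => (f x).curryLeft
      map_add' := fun x y => by ext; simp
      map_smul' := fun c x => by ext; simp }

@[simp] theorem hat_tmul {n : ℕ} (f : Co k A X (n + 1)) (x : X) (c : A) (a : Fin n → A) :
    hat f (x ⊗ₜ c) a = f x (Fin.cons c a) := by
  simp [hat]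

/-- the inverse of `hat` -/
noncomputable def unhat {n : ℕ} (g : Co k A (X ⊗[k] A) n) : Co k A X (n + 1) where
  toFun x := LinearMap.uncurryLeft
    { toFun := fun c => g (x ⊗ₜ c)
      map_add' := fun c c' => by rw [TensorProduct.tmul_add, map_add]
      map_smul' := fun t c => by rw [TensorProduct.tmul_smul, map_smul]; rfl }
  map_add' x y := by
    ext a
    simp [TensorProduct.add_tmul]
  map_smul' t x := by
    ext a
    simp [← TensorProduct.smul_tmul']

@[simp] theorem unhat_cons {n : ℕ} (g : Co k A (X ⊗[k] A) n) (x : X) (c : A) (a : Fin n → A) :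
    unhat g x (Fin.cons c a) = g (x ⊗ₜ c) a := by
  simp [unhat]

theorem dl_cons (β : BiAct k A X) {n : ℕ} (f : Co k A X (n + 1)) (x : X) (c : A)
    (a : Fin (n + 1) → A) :
    dl β f x (Fin.cons c a) =
      f (β.r c x) a - f x (Fin.cons (c * a 0) (Fin.tail a)) +
        ∑ i : Fin n, (-1 : k) ^ ((i : ℕ)) *
          f x (Fin.cons c (Fin.contractNth i.castSucc (fun x y : A => x * y) a)) +
        (-1 : k) ^ n * f (β.l (a (Fin.last n)) x) (Fin.cons c (Fin.init a)) := by
  unfold dl
  rw [Fin.sum_univ_succ]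
  have e1 : Fin.contractNth (Fin.castSucc (0 : Fin (n + 1))) (fun x y : A => x * y)
      (Fin.cons c a : Fin (n + 2) → A) = Fin.cons (c * a 0) (Fin.tail a) := by
    rw [Fin.castSucc_zero, contract_zero_cons]
  have e2 : ∀ i : Fin n, Fin.contractNth (Fin.castSucc i.succ) (fun x y : A => x * y)
      (Fin.cons c a : Fin (n + 2) → A) =
        Fin.cons c (Fin.contractNth i.castSucc (fun x y : A => x * y) a) := by
    intro i
    rw [← Fin.succ_castSucc, contract_succ_cons]
  rw [e1]
  simp only [e2]
  have e3 : (Fin.init (Fin.cons c a : Fin (n + 2) → A) : Fin (n + 1) → A) =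
      Fin.cons c (Fin.init a) := by
    funext j
    refine Fin.cases ?_ (fun j => ?_) j
    · simp [Fin.init]
    · simp [Fin.init, ← Fin.succ_castSucc]
  have e4 : (Fin.cons c a : Fin (n + 2) → A) (Fin.last (n + 1)) = a (Fin.last n) := by
    rw [← Fin.succ_last, Fin.cons_succ]
  rw [e3, e4]
  simp only [Fin.cons_zero, Fin.tail_cons, Fin.val_zero, Fin.val_succ, pow_succ]
  simp only [mul_neg, mul_one, neg_neg, neg_mul, one_mul, pow_zero]
  ring

theorem dl_hat (β : BiAct k A X) {n : ℕ} (f : Co k A X (n + 1)) (x : X) (c : A)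
    (a : Fin (n + 1) → A) :
    dl (tw β) (hat f) (x ⊗ₜ c) a = - dl β f x (Fin.cons c a) := by
  rw [dl_cons]
  unfold dl
  simp only [tw_r_tmul, tw_l_tmul, map_sub, sub_apply, hat_tmul, Fin.cons_self_tail]
  simp only [pow_succ, mul_neg, mul_one, neg_mul, Finset.sum_neg_distrib]
  ring

theorem dl_unhat (β : BiAct k A X) {n : ℕ} (g : Co k A (X ⊗[k] A) n) (x : X) (c : A)
    (a : Fin (n + 1) → A) :
    dl β (unhat g) x (Fin.cons c a) = - dl (tw β) g (x ⊗ₜ c) a := by
  rw [dl_cons]
  unfold dl
  simp only [tw_r_tmul, tw_l_tmul, map_sub, sub_apply, unhat_cons]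
  have e : ∀ y : X, unhat g y a = g (y ⊗ₜ a 0) (Fin.tail a) := by
    intro y
    rw [← unhat_cons, Fin.cons_self_tail]
  rw [e]
  simp only [pow_succ, mul_neg, mul_one, neg_mul, Finset.sum_neg_distrib]
  ring

end

/-- cocycles are coboundaries if the homology vanishes -/
theorem exists_of_Hv : ∀ (n : ℕ) {X : Type} [AddCommGroup X] [Module k X] (β : BiAct k A X),
    Hv (n + 1) β → ∀ f : Co k A X (n + 1), (∀ x a, dl β f x a = 0) →
      ∃ h : Co k A X n, ∀ x a, f x a = dl β h x a := by
  intro n
  induction n with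
  | zero =>
    intro X _ _ β hβ f hf
    -- as a functional on `X ⊗ A`
    let φ : X ⊗[k] A →ₗ[k] k :=
      { toFun := fun z => hat f z ![]
        map_add' := fun z w => by simp
        map_smul' := fun c z => by simp }
    have hφ : ∀ x c, φ (x ⊗ₜ c) = f x (Fin.cons c ![]) := fun x c => hat_tmul f x c _
    have h1 : ∀ t, φ (d0 (tw β) t) = 0 := by
      intro t
      induction t with
      | zero => simp
      | tmul y b =>
        induction y with
        | zero => simp
        | tmul x c =>
          have := hf x (Fin.cons c (Fin.cons b ![]))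
          rw [dl_cons] at this
          simp only [d0_tmul, tw_r_tmul, tw_l_tmul, map_sub, hφ]
          simp only [Finset.univ_eq_empty, Finset.sum_empty, add_zero, pow_zero, one_mul] at this
          have e1 : (Fin.tail (Fin.cons b ![] : Fin 1 → A) : Fin 0 → A) = ![] := Subsingleton.elim _ _
          have e2 : (Fin.init (Fin.cons b ![] : Fin 1 → A) : Fin 0 → A) = ![] := Subsingleton.elim _ _
          rw [e1, e2] at this
          simp only [Fin.cons_zero] at this
          have e3 : (Fin.cons b ![] : Fin 1 → A) (Fin.last 0) = b := rfl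
          rw [e3] at this
          linear_combination -this
        | add x y hx hy => rw [TensorProduct.add_tmul, map_add, map_add, hx, hy, add_zero]
      | add x y hx hy => rw [map_add, map_add, hx, hy, add_zero]
    have h2 : LinearMap.ker (d0 β) ≤ LinearMap.ker φ := by
      intro z hz
      obtain ⟨t, ht⟩ := hβ z hz
      rw [LinearMap.mem_ker, ← ht, h1]
    obtain ⟨g, hg⟩ : ∃ g : X →ₗ[k] k, g ∘ₗ d0 β = φ := by
      let e := (d0 β).quotKerEquivRange
      let g0 : LinearMap.range (d0 β) →ₗ[k] k :=
        ((LinearMap.ker (d0 β)).liftQ φ h2) ∘ₗ e.symm.toLinearMap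
      obtain ⟨g, hg⟩ := g0.exists_extend
      refine ⟨g, ?_⟩
      ext1
      ext x c
      have : g (d0 β (x ⊗ₜ[k] c)) = g0 ⟨d0 β (x ⊗ₜ[k] c), ⟨_, rfl⟩⟩ := by
        rw [← hg]; rfl
      simp only [LinearMap.compr₂_apply, TensorProduct.mk_apply, LinearMap.comp_apply,
        TensorProduct.AlgebraTensorModule.curry_apply, TensorProduct.curry_apply,
        LinearMap.coe_restrictScalars]
      rw [this]
      simp only [g0, LinearMap.comp_apply, LinearEquiv.coe_coe]
      have : e.symm ⟨d0 β (x ⊗ₜ[k] c), ⟨_, rfl⟩⟩ = Submodule.Quotient.mk (x ⊗ₜ[k] c) := by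
        rw [LinearEquiv.symm_apply_eq]
        rfl
      rw [this]
      rfl
    refine ⟨{ toFun := fun x => MultilinearMap.constOfIsEmpty k _ (g x)
              map_add' := fun x y => by ext; simp
              map_smul' := fun c x => by ext; simp }, ?_⟩
    intro x a
    have ha : a = Fin.cons (a 0) ![] := by
      funext i
      have : i = 0 := Fin.ext (by have := i.isLt; simp only [Fin.val_zero]; omega)
      subst this
      rfl
    have h3 : φ (x ⊗ₜ a 0) = g (d0 β (x ⊗ₜ a 0)) := by rw [← hg]; rfl
    rw [hφ, ← ha] at h3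
    rw [h3]
    simp [dl, sub_eq_add_neg]
  | succ n ih =>
    intro X _ _ β hβ f hf
    obtain ⟨h, hh⟩ := ih (tw β) hβ (hat f) (by
      intro z a
      induction z with
      | zero => exact dl_zero_arg _ _ _
      | tmul x c => rw [dl_hat, hf, neg_zero]
      | add x y hx hy => rw [dl_add, hx, hy, add_zero])
    refine ⟨unhat (-h), ?_⟩
    intro x a
    rw [← Fin.cons_self_tail a, dl_unhat, dl_neg, neg_neg, ← hh, hat_tmul]

/-- the right hand side of the frozen formula -/
noncomputable def frzRhs (k : Type) {A : Type} [Field k] [Ring A] [Algebra k A] (n : ℕ)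
    (a : Fin (n + 1 + 1) → A) : PiTensorProduct k (fun _ : Fin (n + 1) => A) :=
  (∑ i : Fin (n + 1),
      (-1 : k) ^ (i : ℕ) •
        PiTensorProduct.tprod k
          (Fin.contractNth i.castSucc (fun x y : A => x * y) a)) +
    (-1 : k) ^ (n + 1) •
      PiTensorProduct.tprod k
        ((Fin.cons (a (Fin.last (n + 1)) * a 0)
            (fun j : Fin n => a j.succ.castSucc) : Fin (n + 1) → A))

theorem frz_eq (n : ℕ) (g : Co k A A n) (x : A) (a : Fin (n + 1) → A) :
    PiTensorProduct.lift (LinearMap.uncurryLeft g) (frzRhs k n (Fin.cons x a)) =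
      dl (self k A) g x a := by
  unfold frzRhs
  rw [map_add, map_sum, Fin.sum_univ_succ]
  simp only [map_smul, PiTensorProduct.lift.tprod, smul_eq_mul]
  have e1 : Fin.contractNth (Fin.castSucc (0 : Fin (n + 1))) (fun x y : A => x * y)
      (Fin.cons x a : Fin (n + 2) → A) = Fin.cons (x * a 0) (Fin.tail a) := by
    rw [Fin.castSucc_zero, contract_zero_cons]
  have e2 : ∀ i : Fin n, Fin.contractNth (Fin.castSucc i.succ) (fun x y : A => x * y)
      (Fin.cons x a : Fin (n + 2) → A) =
        Fin.cons x (Fin.contractNth i.castSucc (fun x y : A => x * y) a) := by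
    intro i
    rw [← Fin.succ_castSucc, contract_succ_cons]
  have e4 : (Fin.cons x a : Fin (n + 2) → A) (Fin.last (n + 1)) = a (Fin.last n) := by
    rw [← Fin.succ_last, Fin.cons_succ]
  have e5 : (fun j : Fin n => (Fin.cons x a : Fin (n + 2) → A) j.succ.castSucc) = Fin.init a := by
    funext j
    rw [← Fin.succ_castSucc, Fin.cons_succ]
    rfl
  rw [e1]
  simp only [e2]
  rw [e4, e5]
  simp [dl, self, LinearMap.uncurryLeft_apply]

theorem frz (H : ∀ n, Hv (n + 1) (self k A))
    (b : (n : ℕ) →
      (PiTensorProduct k (fun _ : Fin (n + 1 + 1) => A)) →ₗ[k]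
        (PiTensorProduct k (fun _ : Fin (n + 1) => A)))
    (hb : ∀ (n : ℕ) (a : Fin (n + 1 + 1) → A),
      b n (PiTensorProduct.tprod k a) =
        (∑ i : Fin (n + 1),
            (-1 : k) ^ (i : ℕ) •
              PiTensorProduct.tprod k
                (Fin.contractNth i.castSucc (fun x y : A => x * y) a)) +
          (-1 : k) ^ (n + 1) •
            PiTensorProduct.tprod k
              ((Fin.cons (a (Fin.last (n + 1)) * a 0)
                  (fun j : Fin n => a j.succ.castSucc) : Fin (n + 1) → A))) (n : ℕ) :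
    LinearMap.ker (b n) ≤ LinearMap.range (b (n + 1)) := by
  intro z hz
  by_contra hzr
  obtain ⟨ψ, hψ1, hψ2⟩ := Submodule.exists_dual_map_eq_bot_of_notMem hzr inferInstance
  have hψ3 : ∀ w, ψ (b (n + 1) w) = 0 := by
    intro w
    have : ψ (b (n + 1) w) ∈ (LinearMap.range (b (n + 1))).map ψ := ⟨_, ⟨w, rfl⟩, rfl⟩
    rw [hψ2] at this
    exact this
  let Ψ : MultilinearMap k (fun _ : Fin (n + 1 + 1) => A) k :=
    ψ.compMultilinearMap (PiTensorProduct.tprod k)
  let f : Co k A A (n + 1) := Ψ.curryLeft
  have hf : PiTensorProduct.lift (LinearMap.uncurryLeft f) = ψ := by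
    apply PiTensorProduct.ext
    ext a
    simp [f, Ψ]
  obtain ⟨h, hh⟩ := exists_of_Hv n (self k A) (H n) f (by
    intro x a
    rw [← frz_eq, hf, frzRhs, ← hb]
    exact hψ3 _)
  have h5 : ψ = (PiTensorProduct.lift (LinearMap.uncurryLeft h)) ∘ₗ b n := by
    apply PiTensorProduct.ext
    ext a
    have h6 := hh (a 0) (Fin.tail a)
    rw [← frz_eq, Fin.cons_self_tail, frzRhs, ← hb] at h6
    simp only [LinearMap.compMultilinearMap_apply, LinearMap.comp_apply]
    rw [← h6]
    simp [f, Ψ]
  apply hψ1
  rw [h5, LinearMap.comp_apply, hz, map_zero]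

end Run7.h817.Han
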