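import Mathlib
import Pool.Agent.Run7.h817.Han.Frz

/-!
# Han's conjecture: existence of the Hochschild differential of the frozen statement
-/

set_option autoImplicit false

open scoped TensorProduct

namespace Run7.h817.Han

variable {k A : Type} [Field k] [Ring A] [Algebra k A]

theorem contract_update_zero (n : ℕ) (a : Fin (n + 2) → A) (i : Fin (n + 2)) :
    ∃ (i' : Fin (n + 1)) (φ : A →ₗ[k] A), ∀ x,
      Fin.contractNth (0 : Fin (n + 2)) (fun x y : A => x * y) (Function.update a i x) =
        Function.update (Fin.contractNth (0 : Fin (n + 2)) (fun x y : A => x * y) a) i' (φ x) := by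
  obtain ⟨c, g, rfl⟩ : ∃ (c : A) (g : Fin (n + 1) → A), a = Fin.cons c g :=
    ⟨a 0, Fin.tail a, (Fin.cons_self_tail a).symm⟩
  refine Fin.cases ?_ (fun i => ?_) i
  · refine ⟨0, LinearMap.mulRight k (g 0), fun x => ?_⟩
    rw [Fin.update_cons_zero, contract_zero_cons, contract_zero_cons, Fin.update_cons_zero]
    rfl
  · refine Fin.cases ?_ (fun i => ?_) i
    · refine ⟨0, LinearMap.mulLeft k c, fun x => ?_⟩
      rw [← Fin.cons_update, contract_zero_cons, contract_zero_cons, Fin.update_cons_zero,
        Fin.tail_update_zero, Function.update_self]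
      rfl
    · refine ⟨i.succ, LinearMap.id, fun x => ?_⟩
      rw [← Fin.cons_update, contract_zero_cons, contract_zero_cons, ← Fin.cons_update,
        Fin.tail_update_succ, Function.update_of_ne (Fin.succ_ne_zero i).symm]
      rfl

theorem contract_update : ∀ (n : ℕ) (j : Fin (n + 1)) (a : Fin (n + 2) → A) (i : Fin (n + 2)),
    ∃ (i' : Fin (n + 1)) (φ : A →ₗ[k] A), ∀ x,
      Fin.contractNth j.castSucc (fun x y : A => x * y) (Function.update a i x) =
        Function.update (Fin.contractNth j.castSucc (fun x y : A => x * y) a) i' (φ x) := by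
  intro n
  induction n with
  | zero =>
    intro j a i
    have hj : j = 0 := Fin.ext (by have := j.isLt; simp only [Fin.val_zero]; omega)
    subst hj
    exact contract_update_zero 0 a i
  | succ n ih =>
    intro j a i
    refine Fin.cases ?_ (fun j => ?_) j
    · exact contract_update_zero (n + 1) a i
    · obtain ⟨c, g, rfl⟩ : ∃ (c : A) (g : Fin (n + 2) → A), a = Fin.cons c g :=
        ⟨a 0, Fin.tail a, (Fin.cons_self_tail a).symm⟩
      refine Fin.cases ?_ (fun i => ?_) i
      · refine ⟨0, LinearMap.id, fun x => ?_⟩
        rw [Fin.update_cons_zero, ← Fin.succ_castSucc, contract_succ_cons, contract_succ_cons,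
          Fin.update_cons_zero]
        rfl
      · obtain ⟨i', φ, h⟩ := ih j g i
        refine ⟨i'.succ, φ, fun x => ?_⟩
        rw [← Fin.cons_update, ← Fin.succ_castSucc, contract_succ_cons, contract_succ_cons, h,
          ← Fin.cons_update]

/-- the term number `j` of the differential -/
noncomputable def bterm (k A : Type) [Field k] [Ring A] [Algebra k A] (n : ℕ) (j : Fin (n + 1)) :
    MultilinearMap k (fun _ : Fin (n + 1 + 1) => A) (PiTensorProduct k (fun _ : Fin (n + 1) => A)) :=
  MultilinearMap.mk' (fun a => PiTensorProduct.tprod k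
      (Fin.contractNth j.castSucc (fun x y : A => x * y) a))
    (by
      intro a i x y
      obtain ⟨i', φ, h⟩ := contract_update (k := k) n j a i
      simp only [h, map_add, MultilinearMap.map_update_add])
    (by
      intro a i c x
      obtain ⟨i', φ, h⟩ := contract_update (k := k) n j a i
      simp only [h, map_smul, MultilinearMap.map_update_smul])

theorem last_update (n : ℕ) (a : Fin (n + 2) → A) (i : Fin (n + 2)) :
    ∃ (i' : Fin (n + 1)) (φ : A →ₗ[k] A), ∀ x,
      (Fin.cons (Function.update a i x (Fin.last (n + 1)) * Function.update a i x 0)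
        (fun j : Fin n => Function.update a i x j.succ.castSucc) : Fin (n + 1) → A) =
      Function.update (Fin.cons (a (Fin.last (n + 1)) * a 0)
        (fun j : Fin n => a j.succ.castSucc) : Fin (n + 1) → A) i' (φ x) := by
  by_cases h0 : i = 0
  · subst h0
    refine ⟨0, LinearMap.mulLeft k (a (Fin.last (n + 1))), fun x => ?_⟩
    rw [Fin.update_cons_zero, Function.update_self, Function.update_of_ne (Fin.last_pos).ne']
    have : (fun j : Fin n => Function.update a 0 x j.succ.castSucc) =
        fun j : Fin n => a j.succ.castSucc := by
      funext j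
      rw [Function.update_of_ne]
      intro h
      have := congrArg Fin.val h
      simp at this
    rw [this]
    rfl
  · by_cases hl : i = Fin.last (n + 1)
    · subst hl
      refine ⟨0, LinearMap.mulRight k (a 0), fun x => ?_⟩
      rw [Fin.update_cons_zero, Function.update_self, Function.update_of_ne (Fin.last_pos).ne]
      have : (fun j : Fin n => Function.update a (Fin.last (n + 1)) x j.succ.castSucc) =
          fun j : Fin n => a j.succ.castSucc := by
        funext j
        rw [Function.update_of_ne]
        exact (Fin.castSucc_lt_last _).ne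
      rw [this]
      rfl
    · obtain ⟨i1, rfl⟩ : ∃ i1 : Fin (n + 1), i = i1.castSucc :=
        ⟨i.castPred hl, (Fin.castSucc_castPred i hl).symm⟩
      obtain ⟨i2, rfl⟩ : ∃ i2 : Fin n, i1 = i2.succ := by
        refine ⟨i1.pred (by rintro rfl; exact h0 rfl), (Fin.succ_pred _ _).symm⟩
      refine ⟨i2.succ, LinearMap.id, fun x => ?_⟩
      rw [← Fin.cons_update, Function.update_of_ne (Ne.symm hl), Function.update_of_ne (Ne.symm h0)]
      congr 1
      funext j
      by_cases hj : j = i2
      · subst hj
        simp
      · rw [Function.update_of_ne, Function.update_of_ne hj]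
        intro h
        apply hj
        have := congrArg Fin.val h
        simp only [Fin.val_castSucc, Fin.val_succ] at this
        exact Fin.ext (by omega)

/-- the cyclic term of the differential -/
noncomputable def blast (k A : Type) [Field k] [Ring A] [Algebra k A] (n : ℕ) :
    MultilinearMap k (fun _ : Fin (n + 1 + 1) => A) (PiTensorProduct k (fun _ : Fin (n + 1) => A)) :=
  MultilinearMap.mk' (fun a => PiTensorProduct.tprod k
      ((Fin.cons (a (Fin.last (n + 1)) * a 0)
        (fun j : Fin n => a j.succ.castSucc) : Fin (n + 1) → A)))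
    (by
      intro a i x y
      obtain ⟨i', φ, h⟩ := last_update (k := k) n a i
      simp only [h, map_add, MultilinearMap.map_update_add])
    (by
      intro a i c x
      obtain ⟨i', φ, h⟩ := last_update (k := k) n a i
      simp only [h, map_smul, MultilinearMap.map_update_smul])

/-- the Hochschild differential -/
noncomputable def bb (k A : Type) [Field k] [Ring A] [Algebra k A] (n : ℕ) :
    (PiTensorProduct k (fun _ : Fin (n + 1 + 1) => A)) →ₗ[k]
      (PiTensorProduct k (fun _ : Fin (n + 1) => A)) :=
  PiTensorProduct.lift ((∑ j : Fin (n + 1), (-1 : k) ^ (j : ℕ) • bterm k A n j) +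
    (-1 : k) ^ (n + 1) • blast k A n)

theorem bb_tprod (n : ℕ) (a : Fin (n + 1 + 1) → A) :
    bb k A n (PiTensorProduct.tprod k a) =
      (∑ i : Fin (n + 1),
          (-1 : k) ^ (i : ℕ) •
            PiTensorProduct.tprod k
              (Fin.contractNth i.castSucc (fun x y : A => x * y) a)) +
        (-1 : k) ^ (n + 1) •
          PiTensorProduct.tprod k
            ((Fin.cons (a (Fin.last (n + 1)) * a 0)
                (fun j : Fin n => a j.succ.castSucc) : Fin (n + 1) → A)) := by
  unfold bb
  rw [PiTensorProduct.lift.tprod]
  simp [bterm, blast]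

/-- final reduction: a finite-dimensional algebra with vanishing positive Hochschild homology and
infinite global dimension disproves Han's conjecture -/
theorem not_han (k A : Type) [Field k] [Ring A] [Algebra k A] [FiniteDimensional k A]
    (H : ∀ n, Hv (n + 1) (self k A))
    (G : ¬ ∃ d : ℕ, ∀ M : ModuleCat.{0} A,
          ∃ P : CategoryTheory.ProjectiveResolution M,
            ∀ i : ℕ, d < i → CategoryTheory.Limits.IsZero (P.complex.X i)) :
    ¬ (∀ (k : Type) [Field k] (A : Type) [Ring A] [Algebra k A] [FiniteDimensional k A],
      ∀ b : (n : ℕ) →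
          (PiTensorProduct k (fun _ : Fin (n + 1 + 1) => A)) →ₗ[k]
            (PiTensorProduct k (fun _ : Fin (n + 1) => A)),
        (∀ (n : ℕ) (a : Fin (n + 1 + 1) → A),
            b n (PiTensorProduct.tprod k a) =
              (∑ i : Fin (n + 1),
                  (-1 : k) ^ (i : ℕ) •
                    PiTensorProduct.tprod k
                      (Fin.contractNth i.castSucc (fun x y : A => x * y) a)) +
                (-1 : k) ^ (n + 1) •
                  PiTensorProduct.tprod k
                    ((Fin.cons (a (Fin.last (n + 1)) * a 0)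
                        (fun j : Fin n => a j.succ.castSucc) : Fin (n + 1) → A))) →
        (∃ N : ℕ, ∀ n : ℕ, N ≤ n → LinearMap.ker (b n) ≤ LinearMap.range (b (n + 1))) →
        ∃ d : ℕ, ∀ M : ModuleCat.{0} A,
          ∃ P : CategoryTheory.ProjectiveResolution M,
            ∀ i : ℕ, d < i → CategoryTheory.Limits.IsZero (P.complex.X i)) := by
  intro h
  exact G (h k A (bb k A) bb_tprod ⟨0, fun n _ => frz H (bb k A) bb_tprod n⟩)

end Run7.h817.Han
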