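import Mathlib

/-!
# Han's conjecture: infinite global dimension, abstract part
-/

set_option autoImplicit false

namespace Run7.h817.Han

open CategoryTheory Limits

universe u

/-- the conclusion of the frozen statement: uniformly bounded projective resolutions -/
def FrozenGl (A : Type) [Ring A] : Prop :=
  ∃ d : ℕ, ∀ M : ModuleCat.{0} A,
    ∃ P : CategoryTheory.ProjectiveResolution M,
      ∀ i : ℕ, d < i → CategoryTheory.Limits.IsZero (P.complex.X i)

/-- projective dimension `< t` -/
def PD (A M : Type) [Ring A] [AddCommGroup M] [Module A M] (t : ℕ) : Prop :=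
  HasProjectiveDimensionLT (ModuleCat.of A M) t

section

variable {A : Type} [Ring A]

theorem pd_of_res (M : ModuleCat.{0} A) (P : ProjectiveResolution M) (d : ℕ)
    (h : ∀ i, d < i → IsZero (P.complex.X i)) : HasProjectiveDimensionLT M (d + 1) := by
  let := HasExt.standard (ModuleCat.{0} A)
  rw [hasProjectiveDimensionLT_iff]
  intro i hi Y α
  obtain ⟨f, hf, rfl⟩ := P.extMk_surjective α (i + 1) rfl
  have : f = 0 := (h i (by omega)).eq_of_src _ _
  subst this
  exact P.extMk_zero _ rfl

theorem FrozenGl.pd (h : FrozenGl A) :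
    ∃ n : ℕ, ∀ (M : Type) [AddCommGroup M] [Module A M], PD A M n := by
  obtain ⟨d, hd⟩ := h
  refine ⟨d + 1, fun M _ _ => ?_⟩
  obtain ⟨P, hP⟩ := hd (ModuleCat.of A M)
  exact pd_of_res _ P d hP

variable {M N K : Type} [AddCommGroup M] [Module A M] [AddCommGroup N] [Module A N]
  [AddCommGroup K] [Module A K]

theorem shortExact_of (f : M →ₗ[A] N) (g : N →ₗ[A] K) (hf : Function.Injective f)
    (hg : Function.Surjective g) (h : Function.Exact f g) :
    (ShortComplex.mk (ModuleCat.ofHom f) (ModuleCat.ofHom g) (by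
      ext x
      exact h.apply_apply_eq_zero x)).ShortExact where
  exact := by
    rw [ShortComplex.ShortExact.moduleCat_exact_iff_function_exact]
    exact h
  mono_f := (ModuleCat.mono_iff_injective _).2 hf
  epi_g := (ModuleCat.epi_iff_surjective _).2 hg

theorem PD.mono {t t' : ℕ} (h : PD A M t) (ht : t ≤ t') : PD A M t' :=
  @hasProjectiveDimensionLT_of_ge _ _ _ _ t t' ht h

theorem PD_mid (f : M →ₗ[A] N) (g : N →ₗ[A] K) (hf : Function.Injective f)
    (hg : Function.Surjective g) (h : Function.Exact f g) {t : ℕ} (hA : PD A M t)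
    (hC : PD A K t) : PD A N t :=
  (shortExact_of f g hf hg h).hasProjectiveDimensionLT_X₂ t hA hC

theorem PD_right (f : M →ₗ[A] N) (g : N →ₗ[A] K) (hf : Function.Injective f)
    (hg : Function.Surjective g) (h : Function.Exact f g) {t : ℕ} (hA : PD A M t)
    (hB : PD A N (t + 1)) : PD A K (t + 1) :=
  (shortExact_of f g hf hg h).hasProjectiveDimensionLT_X₃ t hA hB

theorem PD_left (f : M →ₗ[A] N) (g : N →ₗ[A] K) (hf : Function.Injective f)
    (hg : Function.Surjective g) (h : Function.Exact f g) {t : ℕ} (hB : PD A N t)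
    (hC : PD A K (t + 1)) : PD A M t :=
  (shortExact_of f g hf hg h).hasProjectiveDimensionLT_X₁ t hB hC

theorem PD_projective [Module.Projective A M] : PD A M 1 := by
  have h : Projective (ModuleCat.of A M) := (IsProjective.iff_projective M).1 inferInstance
  exact projective_iff_hasProjectiveDimensionLT_one.1 h

theorem projective_of_PD (h : PD A M 1) : Module.Projective A M :=
  (IsProjective.iff_projective M).2 (projective_iff_hasProjectiveDimensionLT_one.2 h)

end

/-- a length two complex `P2 → P1 → P0` of projectives with `P2` injecting, `H_1 = Z'` and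
`0 → Z'' → H_0 → Z → 0` -/
structure GKos (A : Type) [Ring A] (Z' Z'' Z : Type) [AddCommGroup Z'] [Module A Z']
    [AddCommGroup Z''] [Module A Z''] [AddCommGroup Z] [Module A Z] where
  P2 : Type
  P1 : Type
  P0 : Type
  [g2 : AddCommGroup P2]
  [g1 : AddCommGroup P1]
  [g0 : AddCommGroup P0]
  [m2 : Module A P2]
  [m1 : Module A P1]
  [m0 : Module A P0]
  p2 : Module.Projective A P2
  p1 : Module.Projective A P1
  p0 : Module.Projective A P0
  d2 : P2 →ₗ[A] P1
  d1 : P1 →ₗ[A] P0
  inj : Function.Injective d2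
  d1_d2 : ∀ t, d1 (d2 t) = 0
  δ : LinearMap.ker d1 →ₗ[A] Z'
  δ_surj : Function.Surjective δ
  δ_ker : ∀ z : LinearMap.ker d1, δ z = 0 ↔ ∃ t, d2 t = z
  e : P0 →ₗ[A] Z
  e_surj : Function.Surjective e
  e_d1 : ∀ y, e (d1 y) = 0
  γ : LinearMap.ker e →ₗ[A] Z''
  γ_surj : Function.Surjective γ
  γ_ker : ∀ z : LinearMap.ker e, γ z = 0 ↔ ∃ y, d1 y = z

attribute [instance] GKos.g2 GKos.g1 GKos.g0 GKos.m2 GKos.m1 GKos.m0 GKos.p2 GKos.p1 GKos.p0

/-- non-splitting condition: `P1` is generated by elements fixed by `c`, and a linear map `q` kills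
the elements of `ker d1` fixed by `c` but not all of `ker d1`. -/
structure GEnd (A : Type) [Ring A] {Z' Z'' Z : Type} [AddCommGroup Z'] [Module A Z']
    [AddCommGroup Z''] [Module A Z''] [AddCommGroup Z] [Module A Z] (S : GKos A Z' Z'' Z) where
  c : A
  gens : Set S.P1
  span : Submodule.span A gens = ⊤
  fix : ∀ s ∈ gens, c • s = s
  Q : Type
  [gQ : AddCommGroup Q]
  [mQ : Module A Q]
  q : S.P1 →ₗ[A] Q
  q_zero : ∀ z, S.d1 z = 0 → c • z = z → q z = 0
  q_ne : ∃ z, S.d1 z = 0 ∧ q z ≠ 0

attribute [instance] GEnd.gQ GEnd.mQ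

section

variable {A : Type} [Ring A] {Z' Z'' Z : Type} [AddCommGroup Z'] [Module A Z']
    [AddCommGroup Z''] [Module A Z''] [AddCommGroup Z] [Module A Z]

namespace GKos

variable (S : GKos A Z' Z'' Z)

theorem pd_ker_e {n : ℕ} (hn : 1 ≤ n) (h : PD A Z (n + 1)) : PD A (LinearMap.ker S.e) n :=
  PD_left (LinearMap.ker S.e).subtype S.e Subtype.val_injective S.e_surj
    (by
      intro x
      constructor
      · intro hx
        exact ⟨⟨x, hx⟩, rfl⟩
      · rintro ⟨y, rfl⟩
        exact y.2)
    (PD_projective.mono hn) h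

theorem pd_range {n : ℕ} (hn : 1 ≤ n) (h : PD A Z (n + 1)) (h'' : PD A Z'' (n + 1)) :
    PD A (LinearMap.range S.d1) n := by
  have hle : LinearMap.range S.d1 ≤ LinearMap.ker S.e := by
    rintro _ ⟨y, rfl⟩
    exact S.e_d1 y
  refine PD_left (Submodule.inclusion hle) S.γ (Submodule.inclusion_injective hle) S.γ_surj
    ?_ (S.pd_ker_e hn h) h''
  intro z
  rw [S.γ_ker z]
  constructor
  · rintro ⟨y, hy⟩
    exact ⟨⟨z, y, hy⟩, by ext; rfl⟩
  · rintro ⟨⟨_, y, rfl⟩, rfl⟩
    exact ⟨y, rfl⟩

theorem pd_ker {n : ℕ} (hn : 1 ≤ n) (h : PD A Z (n + 2)) (h'' : PD A Z'' (n + 2)) :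
    PD A (LinearMap.ker S.d1) n := by
  refine PD_left (LinearMap.ker S.d1).subtype S.d1.rangeRestrict Subtype.val_injective
    (LinearMap.surjective_rangeRestrict _) ?_ (PD_projective.mono hn)
    (S.pd_range (n := n + 1) (by omega) h h'')
  intro x
  constructor
  · intro hx
    exact ⟨⟨x, by simpa [Subtype.ext_iff] using hx⟩, rfl⟩
  · rintro ⟨y, rfl⟩
    ext
    exact y.2

include S in
theorem pd_Z' {n : ℕ} (hn : 1 ≤ n) (h : PD A Z (n + 3)) (h'' : PD A Z'' (n + 3)) :
    PD A Z' (n + 1) := by
  refine PD_right (S.d2.codRestrict (LinearMap.ker S.d1) S.d1_d2) S.δ ?_ S.δ_surj ?_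
    (PD_projective.mono hn) (S.pd_ker (n := n + 1) (by omega) h h'')
  · intro x y hxy
    apply S.inj
    simpa [Subtype.ext_iff] using hxy
  · intro z
    rw [S.δ_ker z]
    constructor
    · rintro ⟨y, hy⟩
      exact ⟨y, by ext; exact hy⟩
    · rintro ⟨y, rfl⟩
      exact ⟨y, rfl⟩

theorem not_pd_two (E : GEnd A S) (h : PD A Z 2) (h'' : PD A Z'' 2) : False := by
  have h1 : Module.Projective A (LinearMap.range S.d1) :=
    projective_of_PD (S.pd_range (n := 1) le_rfl h h'')
  obtain ⟨t, ht⟩ := Module.projective_lifting_property S.d1.rangeRestrict LinearMap.id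
    (LinearMap.surjective_rangeRestrict _)
  let π : S.P1 →ₗ[A] S.P1 := LinearMap.id - t ∘ₗ S.d1.rangeRestrict
  have hπ1 : ∀ x, S.d1 (π x) = 0 := by
    intro x
    have := congrArg Subtype.val (LinearMap.congr_fun ht (S.d1.rangeRestrict x))
    simp only [LinearMap.comp_apply, LinearMap.id_apply] at this
    simp only [π, LinearMap.sub_apply, LinearMap.id_apply, LinearMap.comp_apply, map_sub]
    have h2 : S.d1 (t (S.d1.rangeRestrict x)) = S.d1 x := this
    rw [h2, sub_self]
  have hπ2 : ∀ x, S.d1 x = 0 → π x = x := by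
    intro x hx
    have : S.d1.rangeRestrict x = 0 := by
      ext
      exact hx
    simp [π, this]
  have hq : E.q ∘ₗ π = 0 := by
    apply LinearMap.ext_on (s := E.gens) E.span
    intro s hs
    simp only [LinearMap.comp_apply, LinearMap.zero_apply]
    apply E.q_zero _ (hπ1 s)
    rw [← map_smul, E.fix s hs]
  obtain ⟨z, hz, hz'⟩ := E.q_ne
  apply hz'
  rw [← hπ2 z hz]
  exact LinearMap.congr_fun hq z

end GKos

end

/-- **GLDA**: a family `Z u` closed under `s`, with Koszul data `Z u, Z u, Z (s u)` for every `u`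
and the non-splitting condition for one `u`: the global dimension is infinite. -/
theorem glda {A : Type} [Ring A] {G : Type} (Z : G → Type) [∀ u, AddCommGroup (Z u)]
    [∀ u, Module A (Z u)] (s : G → G) (K : ∀ u, GKos A (Z u) (Z u) (Z (s u)))
    (u0 : G) (E : GEnd A (K u0)) : ¬ FrozenGl A := by
  intro h
  obtain ⟨n, hn⟩ := h.pd
  have key : ∀ m : ℕ, (∀ u, PD A (Z u) (m + 2)) → ∀ u, PD A (Z u) 2 := by
    intro m
    induction m using Nat.strong_induction_on with
    | _ m ih =>
      intro hm
      rcases Nat.lt_or_ge m 1 with h0 | h1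
      · have : m = 0 := by omega
        subst this
        exact hm
      · rcases Nat.lt_or_ge m 2 with h2 | h2
        · have : m = 1 := by omega
          subst this
          exact ih 0 (by omega) fun u =>
            (K u).pd_Z' (n := 1) le_rfl ((hm _).mono (by omega)) ((hm _).mono (by omega))
        · obtain ⟨m, rfl⟩ := Nat.exists_eq_add_of_le h2
          refine ih m (by omega) fun u => ?_
          have := (K u).pd_Z' (n := m + 1) (by omega) ((hm _).mono (by omega))
            ((hm _).mono (by omega))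
          exact this
  have h2 := key n fun u => (hn (Z u)).mono (by omega)
  exact (K u0).not_pd_two E (h2 _) (h2 _)

end Run7.h817.Han
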