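import Mathlib
import Pool.Agent.Run7.h817.Han.Glda
import Pool.Agent.Run7.h258.Han.KDat

/-!
# Han's conjecture: infinite global dimension of `A k` from the Koszul data
-/

set_option autoImplicit false

open Run7.h258.Han

namespace Run7.h817.Han

variable {k : Type} [Field k]

theorem proj_PP (j : Fin 3) : Module.Projective (A k) (PP k j) := by
  let s' : A k →ₗ[A k] PP k j :=
    { toFun := fun a => ⟨a * ee k j, by rw [mem_PP_iff, mul_assoc, ee_mul_ee]⟩
      map_add' := fun a b => Subtype.ext (add_mul _ _ _)
      map_smul' := fun a b => Subtype.ext (mul_assoc a b _) }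
  exact Module.Projective.of_split (PP k j).subtype s' (LinearMap.ext fun x => Subtype.ext x.2)

/-- the Koszul data of a point -/
noncomputable def kdatGKos {p u l1 l2 : Fin 3 → k} (K : KDat p u l1 l2) :
    GKos (A k) (Zp u) (Zp u) (Zp p) :=
  have h0 := proj_PP (k := k) 0
  have _h1 := proj_PP (k := k) 1
  have h2 := proj_PP (k := k) 2
  { P2 := PP k 0
    P1 := PP k 1 × PP k 1
    P0 := PP k 2
    p2 := h0
    p1 := inferInstance
    p0 := h2
    d2 := kd2 l1 l2
    d1 := kd1 l1 l2
    inj := K.inj
    d1_d2 := K.d12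
    δ := K.δ
    δ_surj := K.δs
    δ_ker := K.δk
    e := K.e
    e_surj := K.es
    e_d1 := K.ed
    γ := K.γ
    γ_surj := K.γs
    γ_ker := K.γk }

/-- the elements with zero component in the Beilinson algebra -/
noncomputable def NN (k : Type) [Field k] : Submodule (A k) (A k) where
  carrier := {a | A.bb a = 0}
  add_mem' := fun {a b} ha hb => by
    show A.bb (a + b) = 0
    rw [map_add, ha, hb, add_zero]
  zero_mem' := map_zero _
  smul_mem' := fun c a ha => by
    show A.bb (c * a) = 0
    rw [A.bb_mul, ha, mul_zero]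

/-- the non-splitting condition -/
noncomputable def kdatGEnd {p u l1 l2 : Fin 3 → k} (K : KDat p u l1 l2)
    (hind : ∀ a b : k, a • l1 + b • l2 = 0 → a = 0 ∧ b = 0) : GEnd (A k) (kdatGKos K) where
  c := ee k 1
  gens := {((ePP 1 : PP k 1), (0 : PP k 1)), ((0 : PP k 1), (ePP 1 : PP k 1))}
  span := by
    rw [eq_top_iff]
    rintro ⟨s, t⟩ -
    have h1 : ((s, t) : PP k 1 × PP k 1) = (s : A k) • ((ePP 1 : PP k 1), (0 : PP k 1)) +
        (t : A k) • ((0 : PP k 1), (ePP 1 : PP k 1)) := by
      apply Prod.ext
      · apply Subtype.ext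
        show (s : A k) = (s : A k) * ee k 1 + (t : A k) * 0
        rw [mul_zero, add_zero]
        exact s.2.symm
      · apply Subtype.ext
        show (t : A k) = (s : A k) * 0 + (t : A k) * ee k 1
        rw [mul_zero, zero_add]
        exact t.2.symm
    have h2 := Submodule.add_mem _
      (Submodule.smul_mem (Submodule.span (A k)
        ({((ePP 1 : PP k 1), (0 : PP k 1)), ((0 : PP k 1), (ePP 1 : PP k 1))} :
          Set (PP k 1 × PP k 1))) (s : A k) (Submodule.subset_span (Or.inl rfl)))
      (Submodule.smul_mem _ (t : A k) (Submodule.subset_span (Or.inr rfl)))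
    rw [← h1] at h2
    exact h2
  fix := by
    intro s hs
    rcases hs with rfl | hs
    · apply Prod.ext
      · exact Subtype.ext (ee_mul_ee 1)
      · exact Subtype.ext (mul_zero _)
    · obtain rfl : s = ((0 : PP k 1), (ePP 1 : PP k 1)) := hs
      apply Prod.ext
      · exact Subtype.ext (mul_zero _)
      · exact Subtype.ext (ee_mul_ee 1)
  Q := (A k ⧸ NN k) × (A k ⧸ NN k)
  q := LinearMap.prodMap ((NN k).mkQ ∘ₗ (PP k 1).subtype) ((NN k).mkQ ∘ₗ (PP k 1).subtype)
  q_zero := by
    rintro ⟨s, t⟩ h1 h2
    have hs : ee k 1 * (s : A k) = s := congrArg (fun z => ((Prod.fst z : PP k 1) : A k)) h2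
    have ht : ee k 1 * (t : A k) = t := congrArg (fun z => ((Prod.snd z : PP k 1) : A k)) h2
    have key : ∀ s : A k, ee k 1 * s = s → s ∈ PP k 1 →
        A.bb s = B.mk (Pi.single 1 ((A.bb s).a 1)) 0 0 0 := by
      intro s h h'
      have e1 := congrArg A.bb h
      have e2 : A.bb (s * ee k 1) = A.bb s := congrArg A.bb h'
      have e3 : ∀ i : Fin 3, i ≠ 1 → (A.bb s).a i = 0 := by
        intro i hi
        have := congrFun (congrArg B.a e1) i
        simp [ee, A.ofB, hi] at this
        exact this.symm
      apply B.ext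
      · funext i
        by_cases hi : i = 1
        · subst hi; simp
        · rw [e3 i hi]; simp [hi]
      · have := congrArg B.u e1
        simp [ee, A.ofB] at this
        simpa using this.symm
      · have := congrArg B.v e2
        simp [ee, A.ofB] at this
        simpa using this.symm
      · have := congrArg B.w e1
        simp [ee, A.ofB, B.sm_zero_left] at this
        simpa using this.symm
    have es := key s hs s.2
    have et := key t ht t.2
    have h3 : (s : A k) * h12 l1 + (t : A k) * h12 l2 = 0 := congrArg Subtype.val h1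
    have h4 := congrArg (fun z => B.v (A.bb z)) h3
    simp only [map_add, A.bb_mul, B.v_mul, map_zero] at h4
    simp [h12, A.ofB] at h4
    obtain ⟨c1, c2⟩ := hind _ _ h4
    rw [c1] at es
    rw [c2] at et
    have z1 : (s : A k) ∈ NN k := by
      show A.bb (s : A k) = 0
      rw [es, Pi.single_zero]
      rfl
    have z2 : (t : A k) ∈ NN k := by
      show A.bb (t : A k) = 0
      rw [et, Pi.single_zero]
      rfl
    apply Prod.ext
    · exact (Submodule.Quotient.mk_eq_zero _).2 z1
    · exact (Submodule.Quotient.mk_eq_zero _).2 z2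
  q_ne := by
    refine ⟨kd2 l1 l2 (ePP 0), K.d12 _, ?_⟩
    intro h
    have h1 : (NN k).mkQ (((kd2 l1 l2 (ePP 0)).1 : PP k 1) : A k) = 0 := congrArg Prod.fst h
    rw [kd2_fst, Submodule.mkQ_apply, Submodule.Quotient.mk_eq_zero] at h1
    have h2 : A.bb ((ee k 0) * h01 l2) = 0 := h1
    have h3 := congrArg B.u h2
    simp [ee, h01, A.ofB] at h3
    have h4 := hind 0 1 (by rw [h3]; simp)
    exact one_ne_zero h4.2

/-- infinite global dimension, from the Koszul data of all points -/
theorem gld_of_kdat {G : Type} (s : G → G) (v : G → Fin 3 → k)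
    (K : ∀ u : G, ∃ l1 l2 : Fin 3 → k, Nonempty (KDat (v (s u)) (v u) l1 l2) ∧
      ∀ a b : k, a • l1 + b • l2 = 0 → a = 0 ∧ b = 0) (u0 : G) :
    ¬ FrozenGl (A k) := by
  choose l1 l2 hK hind using K
  exact glda (fun u => Zp (v u)) s (fun u => kdatGKos (hK u).some) u0
    (kdatGEnd (hK u0).some (hind u0))

end Run7.h817.Han
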