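import Mathlib
import Pool.Agent.Run7.h817.Han.Bex
import Pool.Agent.Run7.h817.Han.Gld
import Pool.Agent.Run7.h258.Han.StepA
import Pool.Agent.Run7.h921.Han.BRESc
import Pool.Agent.Run7.h975.Han.StepB
import Pool.Agent.Run7.h975.Han.StepC

/-!
# Han's conjecture: assembly of the counterexample
-/

set_option autoImplicit false

open Run7.h258.Han Run7.h921.Han Run7.h921.Han.F1 Run7.h975.Han

namespace Run7.h817.Han

/-- the positive Hochschild homology of `A` vanishes -/
theorem hv_self (k : Type) [Field k] [CharZero k] [IsAlgClosed k] [DecidableEq k] (HK : HKD k)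
    (n : ℕ) : Hv (n + 1) (self k (A k)) :=
  Run7.h921.Han.BRESc (fun n => STEPC (fun n => STEPB n fun t x0 hx => hv_evO HK n t x0 hx)
    (hv_inf HK) (hv_neg HK) 0 n) n

/-- the global dimension of `A` is infinite -/
theorem gld_A (k : Type) [Field k] [CharZero k] [DecidableEq k] (HK : HKD k) :
    ¬ FrozenGl (A k) := by
  refine gld_of_kdat (G := (E k).Point) (fun u => u + Pz k) (vec k) (fun u => ?_) 0
  obtain ⟨l1, l2, -, -, hind, hK⟩ := HK (u + Pz k)
  rw [add_sub_cancel_right] at hK
  exact ⟨l1, l2, hK, hind⟩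

end Run7.h817.Han
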